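import Mathlib

set_option autoImplicit false

namespace Pool.Agent.Results.MP_e73581_co.Counter

open Matrix

abbrev M := Matrix (Fin 4) (Fin 4) (ZMod 2)

/-- `C` is an MRD code in `M_4(F_2)` with minimum rank distance `d` -/
def IsMRD (C : Set M) (d : ℕ) : Prop :=
  (∀ A ∈ C, ∀ B ∈ C, A ≠ B → d ≤ (A - B).rank) ∧ (∃ A ∈ C, ∃ B ∈ C, A ≠ B ∧ (A - B).rank = d) ∧
    C.ncard = 2 ^ (4 * (4 - d + 1))

def bit (t k : ℕ) : ZMod 2 := if t.testBit k then 1 else 0

def S : Fin 4 → Fin 4 → List ℕ := ![![[0], [1], [2], [3]], ![[4], [5], [6], [7]], ![[8], [9], [10], [11]],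
  ![[1, 6, 7, 8, 10], [2, 4, 10, 11], [2, 3, 5, 6, 8, 9, 10], [0, 5, 10]]]

def φ (t : ℕ) : M := fun i j => ((S i j).map (bit t)).sum

lemma φ_xor (a b : ℕ) : φ (a ^^^ b) = φ a + φ b := by
  have : bit (a ^^^ b) = fun k => bit a k + bit b k := funext fun k => by
    simp only [bit, Nat.testBit_xor]; cases a.testBit k <;> cases b.testBit k <;> decide
  ext i j
  simp only [φ, this, List.sum_map_add, Matrix.add_apply]

lemma bits {a b n : ℕ} (h : ∀ k < n, bit a k = bit b k) : a % 2 ^ n = b % 2 ^ n :=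
  Nat.eq_of_testBit_eq fun i => by
    rw [Nat.testBit_mod_two_pow, Nat.testBit_mod_two_pow]
    by_cases hi : i < n
    · have := h i hi
      revert this; unfold bit; cases a.testBit i <;> cases b.testBit i <;> simp
    · simp [hi]

lemma φ_inj {a b : ℕ} (ha : a < 2 ^ 12) (hb : b < 2 ^ 12) (h : φ a = φ b) : a = b := by
  rw [← Nat.mod_eq_of_lt ha, ← Nat.mod_eq_of_lt hb]
  refine bits fun k hk => ?_
  have := congrFun (congrFun h ⟨k / 4, by omega⟩) ⟨k % 4, by omega⟩
  interval_cases k <;> simpa [φ, S] using this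

def C : AddSubgroup M where
  carrier := φ '' Set.Iio (2 ^ 12)
  zero_mem' := ⟨0, by simp, by decide⟩
  add_mem' := by rintro _ _ ⟨a, ha, rfl⟩ ⟨b, hb, rfl⟩; exact ⟨_, Nat.xor_lt_two_pow ha hb, φ_xor a b⟩
  neg_mem' := fun {A} h => by rwa [show -A = A from funext fun _ => funext fun _ => CharTwo.neg_eq _]

def vs : List (Fin 4 → ZMod 2) := (List.range 16).map fun x j => bit x j

def nul (A : M) : ℕ := (vs.filter fun x => ∀ i, A i 0 * x 0 + A i 1 * x 1 + A i 2 * x 2 + A i 3 * x 3 = 0).length

lemma nul_eq (A : M) : nul A = 2 ^ (4 - A.rank) := by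
  have h1 := LinearMap.finrank_range_add_finrank_ker A.mulVecLin
  have h2 := Module.natCard_eq_pow_finrank (K := ZMod 2) (V := LinearMap.ker A.mulVecLin)
  simp only [Module.finrank_fin_fun, Nat.card_zmod] at h1 h2
  rw [show 4 - A.rank = _ from Nat.sub_eq_of_eq_add (h1.symm.trans (add_comm _ _)), ← h2, nul,
    ← List.toFinset_card_of_nodup (List.Nodup.filter _ (by decide)), ← Nat.card_eq_finsetCard]
  refine Nat.card_congr (Equiv.subtypeEquivRight fun x => ?_)
  have : ∀ x, x ∈ vs := by decide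
  simp [this, funext_iff, mulVec, dotProduct, Fin.sum_univ_four]

def low (t : ℕ) : Bool := t < 4096 && Nat.testBit
  555269836296254190900723399702750253590578971404053396622485769629977830751645560650268279278268020758577051668908447715215837057599552528235405524760487547352663924510446180381732141249176653772109726346015796754530566816180760373703673566868329824989959553408442525402907262344996592203614365063051701804716351734016998237247103706135672423101441622141930263757124806597407137344244894515064775155678320526709426283506309646187920819288419802536045755098409960137397353202574846693767896580266387318616541296064472547352306460730691709694956155763694136755637040908786393892013534946230085819470472305416001615595501658332160473941858871819117547836136050564378502716279121490584063248988937678148857364884036141534442823848845499391363510916771510738083908913011569617477008776532327247995748146027269122139223982003024845161489913155594923625320846214663431653689389169461999286353434429120623092608726304844596044812435579932405957486602403625542171693247048157058237908177326599165605182616503625491248954439646466683007599037084682641869210555594373080247253287405933898117602455511223555059790894945785889496761638931209942858418475958998766993062478106479680746587415535572638130607314289722099629913755158670076163560833022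
  t

def tb (m n : ℕ) : Bool := Nat.beq (Nat.mod (Nat.shiftRight m n) 2) 1

lemma tb_eq (m n : ℕ) : bit m n = if tb m n then 1 else 0 := by
  have : m.testBit n = tb m n := by
    rw [Nat.testBit_eq_decide_div_mod_eq, ← Nat.shiftRight_eq_div_pow, Bool.eq_iff_iff, decide_eq_true_iff, tb,
      Nat.beq_eq]; rfl
  rw [bit, this]

def par (t : ℕ) (l : List ℕ) : Bool := l.foldr (fun k b => xor (tb t k) b) false

def rw' (t x : ℕ) (a b c d : List ℕ) : Bool :=
  !xor (xor (xor (tb x 0 && par t a) (tb x 1 && par t b)) (tb x 2 && par t c)) (tb x 3 && par t d)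

def nulB (t : ℕ) : ℕ := ((List.range 16).filter fun x => rw' t x [0] [1] [2] [3] && (rw' t x [4] [5] [6] [7] &&
  (rw' t x [8] [9] [10] [11] && rw' t x [1, 6, 7, 8, 10] [2, 4, 10, 11] [2, 3, 5, 6, 8, 9, 10] [0, 5, 10]))).length

lemma nul_φ (t : ℕ) : nul (φ t) = nulB t := by
  have h : ∀ l : List ℕ, (l.map (bit t)).sum = if par t l then 1 else 0 := fun l => by
    induction l with
    | nil => rfl
    | cons k l ih =>
      rw [List.map_cons, List.sum_cons, ih, show par t (k :: l) = xor (tb t k) (par t l) from rfl, tb_eq]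
      cases tb t k <;> cases par t l <;> decide
  have k : ∀ x i, φ t i 0 * bit x 0 + φ t i 1 * bit x 1 + φ t i 2 * bit x 2 + φ t i 3 * bit x 3 = 0 ↔
      rw' t x (S i 0) (S i 1) (S i 2) (S i 3) := fun x i => by
    simp only [φ, h, tb_eq, rw']
    generalize par t (S i 0) = a; generalize par t (S i 1) = b; generalize par t (S i 2) = c
    generalize par t (S i 3) = d; generalize tb x 0 = a'; generalize tb x 1 = b'
    generalize tb x 2 = c'; generalize tb x 3 = d'
    revert a b c d a' b' c' d'; decide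
  rw [nul, vs, List.filter_map, List.length_map, nulB]
  refine congrArg _ (List.filter_congr fun x _ => ?_)
  rw [Bool.eq_iff_iff, Function.comp, decide_eq_true_iff]
  simp only [Bool.and_eq_true]
  exact (forall_congr' (k x)).trans (by simp only [Fin.forall_fin_succ, IsEmpty.forall_iff, and_true]; rfl)

lemma tbl' (c : ℕ) (h : c < 8) : ∀ a < 8, ∀ b < 64, (low (b + 64 * (a + 8 * c)) → b + 64 * (a + 8 * c) ≠ 0 ∧
    2 < nulB (b + 64 * (a + 8 * c))) ∧ (b + 64 * (a + 8 * c) ≠ 0 → nulB (b + 64 * (a + 8 * c)) ≤ 4) := by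
  interval_cases c <;> decide +kernel

lemma tbl (t : ℕ) (h : t < 4096) : (low t → t ≠ 0 ∧ 2 < nul (φ t)) ∧ (t ≠ 0 → nul (φ t) ≤ 4) := by
  have := tbl' (t / 512) (by omega) (t / 64 % 8) (by omega) (t % 64) (by omega)
  rwa [show t % 64 + 64 * (t / 64 % 8 + 8 * (t / 512)) = t by omega, ← nul_φ] at this

def dfs : ℕ → List ℕ → Bool
  | 0, _ => true
  | k + 1, sp => (List.range 16).any fun r => (sp.all fun s => !low (s ^^^ (2 ^ k + 256 * r))) &&
      dfs k (sp ++ sp.map (· ^^^ (2 ^ k + 256 * r)))

lemma sound (D : AddSubgroup M) (h : ∀ A ∈ D, A ≠ 0 → 3 ≤ A.rank) : ∀ k sp,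
    (∀ j < k, ∃ r < 16, φ (2 ^ j + 256 * r) ∈ D) → (∀ s ∈ sp, φ s ∈ D) → dfs k sp
  | 0, _, _, _ => rfl
  | k + 1, sp, h1, h2 => by
    obtain ⟨r, hr, h3⟩ := h1 k k.lt_succ_self
    have m : ∀ s ∈ sp, φ (s ^^^ (2 ^ k + 256 * r)) ∈ D := fun s hs => φ_xor _ _ ▸ add_mem (h2 s hs) h3
    refine List.any_eq_true.2 ⟨r, List.mem_range.2 hr, Bool.and_eq_true_iff.2 ⟨List.all_eq_true.2 fun s hs =>
      Bool.not_eq_true' _ ▸ Bool.eq_false_iff.2 fun hl => ?_, sound D h k _ (fun j hj => h1 j (by omega))
      fun s hs => (List.mem_append.1 hs).elim (h2 s) fun hs => ?_⟩⟩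
    · have lt := of_decide_eq_true (Bool.and_eq_true_iff.1 hl).1
      obtain ⟨h4, h5⟩ := (tbl _ lt).1 hl
      have := h _ (m s hs) fun e => h4 (φ_inj (b := 0) lt (by norm_num) (e.trans (by decide)))
      rw [nul_eq] at h5
      exact h5.not_ge ((Nat.pow_le_pow_right two_pos (by omega)).trans_eq (pow_one 2))
    · obtain ⟨s, hs', rfl⟩ := List.mem_map.1 hs
      exact m s hs'

theorem result : ∃ C : AddSubgroup M, IsMRD C 2 ∧ ¬ ∃ D : AddSubgroup M, D ≤ C ∧ IsMRD D 3 := by
  have r2 : ∀ A ∈ C, A ≠ 0 → 2 ≤ A.rank := by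
    rintro _ ⟨t, ht, rfl⟩ h
    have := (tbl t ht).2 (by rintro rfl; exact h (by decide))
    rw [nul_eq] at this
    have := (Nat.pow_le_pow_iff_right (a := 2) (m := 2) one_lt_two).1 this
    omega
  refine ⟨C, ⟨fun A a B b h => r2 _ (sub_mem a b) (sub_ne_zero.2 h), ⟨φ 1, ⟨_, by simp, rfl⟩, 0, zero_mem _,
    by decide, ?_⟩, ?_⟩, fun ⟨D, h0, h1, _, h2⟩ => ?_⟩
  · have := nul_eq (φ 1)
    rw [show nul (φ 1) = 2 ^ 2 by decide +kernel, Nat.pow_right_inj one_lt_two] at this
    rw [sub_zero]; omega
  · exact (Set.InjOn.ncard_image fun a ha b hb => φ_inj ha hb).trans (Set.ncard_Iio_nat _)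
  have h3 : ∀ A ∈ D, A ≠ 0 → 3 ≤ A.rank := fun A a h => sub_zero A ▸ h1 A a 0 (zero_mem _) h
  have bij : Function.Bijective fun A : D => (A.1 0, A.1 1) :=
    (Nat.bijective_iff_injective_and_card _).2 ⟨fun A B e => Subtype.ext (by_contra fun hne => by
      have := h1 _ A.2 _ B.2 hne
      have e0 : (A.1 - B.1) 0 = 0 := sub_eq_zero.2 (congrArg Prod.fst e)
      have e1 : (A.1 - B.1) 1 = 0 := sub_eq_zero.2 (congrArg Prod.snd e)
      refine this.not_gt (Nat.lt_succ_of_le ?_)
      rw [rank_eq_finrank_span_row]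
      refine le_trans (Submodule.finrank_mono (Submodule.span_le.2 ?_)) (finrank_span_finset_le_card
        (R := ZMod 2) {(A.1 - B.1) 2, (A.1 - B.1) 3} |>.trans Finset.card_le_two)
      rintro _ ⟨i, rfl⟩
      fin_cases i
      exacts [(congrArg (· ∈ _) e0).mpr (zero_mem _), (congrArg (· ∈ _) e1).mpr (zero_mem _),
        Submodule.subset_span (by simp [row]),
        Submodule.subset_span (by simp [row])]), h2.trans (by simp)⟩
  refine absurd (sound D h3 8 [0] (fun j hj => ?_) (by simpa using (show φ 0 = 0 by decide) ▸ zero_mem D))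
    (by decide +kernel)
  obtain ⟨⟨_, a⟩, e⟩ := bij.2 (φ (2 ^ j) 0, φ (2 ^ j) 1)
  obtain ⟨t, ht, rfl⟩ := h0 a
  have e' : t % 2 ^ 8 = 2 ^ j % 2 ^ 8 := bits fun k hk => by
    have e0 : φ t 0 ⟨k % 4, by omega⟩ = φ (2 ^ j) 0 ⟨k % 4, by omega⟩ := congrFun (congrArg Prod.fst e) _
    have e1 : φ t 1 ⟨k % 4, by omega⟩ = φ (2 ^ j) 1 ⟨k % 4, by omega⟩ := congrFun (congrArg Prod.snd e) _
    interval_cases k <;> simp [φ, S] at e0 e1 <;> assumption
  rw [Nat.mod_eq_of_lt (Nat.pow_lt_pow_right one_lt_two hj)] at e'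
  have ht : t < 4096 := ht
  exact ⟨t / 256, by omega, by rwa [← e', show t % 2 ^ 8 + 256 * (t / 256) = t from Nat.mod_add_div t 256]⟩

end Pool.Agent.Results.MP_e73581_co.Counter
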